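import Mathlib

/-!
# GJ, Cmb: three combinatorial lemmas (progressions, towers of square roots, four terms of one colour)
-/

set_option autoImplicit false

namespace GJ

/-- The translates `t j * c ^ k`, `k` in a progression, avoid a finite set for a suitable `j`. -/
theorem choose_prog {G : Type*} [CommGroup G] (F : Set G) (hF : F.Finite) (t : ℕ → G)
    (ht : Function.Injective t) (c : G) :
    ∃ j k0 m : ℕ, 0 < k0 ∧ 0 < m ∧ ∀ n, t j * c ^ (k0 + m * n) ∉ F := by
  by_cases hc : IsOfFinOrder c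
  · obtain ⟨x, ⟨j, rfl⟩, hj⟩ := (Set.infinite_range_of_injective ht).exists_notMem_finite hF
    refine ⟨j, orderOf c, orderOf c, hc.orderOf_pos, hc.orderOf_pos, fun n => ?_⟩
    rw [pow_add, pow_mul, pow_orderOf_eq_one, one_pow, mul_one, mul_one]
    exact hj
  · have hinj : Function.Injective (fun k : ℕ => t 0 * c ^ k) := by
      intro k l hkl
      exact injective_pow_iff_not_isOfFinOrder.2 hc (mul_left_cancel hkl)
    have hfin : {k : ℕ | t 0 * c ^ k ∈ F}.Finite := hF.preimage hinj.injOn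
    obtain ⟨N, hN⟩ := hfin.bddAbove
    refine ⟨0, N + 1, 1, Nat.succ_pos N, one_pos, fun n hn => ?_⟩
    have := hN (show N + 1 + 1 * n ∈ {k : ℕ | t 0 * c ^ k ∈ F} from hn)
    omega

theorem order_tower {G H : Type*} [CommGroup G] [CommGroup H] (r : G →* H) (t : ℕ → G)
    (h0 : r (t 0) ≠ 1) (h1 : t 0 ^ 2 = 1) (h2 : ∀ n, t (n + 1) ^ 2 = t n) :
    Function.Injective (fun n => r (t n)) ∧ ∀ n, t n ^ (2 ^ (n + 1)) = 1 := by
  have hA : ∀ n, t n ^ (2 ^ n) = t 0 := by
    intro n
    induction n with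
    | zero => rw [pow_zero, pow_one]
    | succ n ih => rw [pow_succ', pow_mul, h2, ih]
  have hB : ∀ n, t n ^ (2 ^ (n + 1)) = 1 := by
    intro n
    rw [pow_succ, pow_mul, hA, h1]
  refine ⟨?_, hB⟩
  have key : ∀ i j, i < j → r (t i) ≠ r (t j) := by
    intro i j hij he
    obtain ⟨d, rfl⟩ := Nat.exists_eq_add_of_lt hij
    apply h0
    rw [← hA (i + d + 1), map_pow, ← he, ← map_pow]
    have e : 2 ^ (i + d + 1) = 2 ^ (i + 1) * 2 ^ d := by
      rw [← pow_add]
      congr 1
      omega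
    rw [e, pow_mul, hB, one_pow, map_one]
  intro i j hij
  by_contra hne
  rcases lt_or_gt_of_ne hne with h | h
  · exact key i j h hij
  · exact key j i h hij.symm

theorem four_term {κ : Type*} [Finite κ] (f : ℕ → κ) :
    ∃ b d : ℕ, 0 < d ∧ f b = f (b + d) ∧ f b = f (b + 2 * d) ∧ f b = f (b + 3 * d) := by
  obtain ⟨d, hd, b, c, h⟩ := Combinatorics.exists_mono_homothetic_copy ({0, 1, 2, 3} : Finset ℕ) f
  have e0 := h 0 (by decide)
  have e1 := h 1 (by decide)
  have e2 := h 2 (by decide)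
  have e3 := h 3 (by decide)
  simp only [smul_eq_mul, mul_zero, zero_add, mul_one] at e0 e1 e2 e3
  refine ⟨b, d, hd, ?_, ?_, ?_⟩
  · rw [e0, ← e1, add_comm]
  · rw [e0, ← e2, mul_comm 2 d, add_comm]
  · rw [e0, ← e3, mul_comm 3 d, add_comm]

end GJ
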