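import Pool.Agent.H88.GJ.Uni

/-!
# GJ, FinS: finitely many classes of at most two points with abscissae fixed by Frobenius
-/

set_option autoImplicit false

namespace GJ

open Polynomial HK

theorem fin_classes {K : Type*} [Field K] [NeZero (2 : K)] (a : Fin (2 * 2 + 1) → K)
    [Fact (Function.Injective a)] (p : ℕ) (hp : 1 < p) :
    {c : ClassGroup (CR (FF a)) | ∃ S, OnC a S ∧ Multiset.card S ≤ 2 ∧
      (∀ P ∈ S, P.1 ^ p = P.1) ∧ clS a S = c}.Finite := by
  -- the points
  have hx : {x : K | x ^ p = x}.Finite := by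
    have hne : (X ^ p - X : K[X]) ≠ 0 := by
      intro h
      have h1 := congrArg (fun q : K[X] => q.coeff p) h
      simp only [coeff_sub, coeff_X_pow, if_true, coeff_zero] at h1
      rw [coeff_X_of_ne_one (by omega : p ≠ 1), sub_zero] at h1
      exact one_ne_zero h1
    refine (rootSet_finite (X ^ p - X : K[X]) K).subset ?_
    intro x hx
    rw [mem_rootSet]
    refine ⟨hne, ?_⟩
    simp only [map_sub, map_pow, aeval_X]
    rw [sub_eq_zero]
    exact hx
  have hy : ∀ c : K, {y : K | y ^ 2 = c}.Finite := by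
    intro c
    have hne : (X ^ 2 - C c : K[X]) ≠ 0 := X_pow_sub_C_ne_zero two_pos c
    refine (rootSet_finite (X ^ 2 - C c : K[X]) K).subset ?_
    intro y hy
    rw [mem_rootSet]
    refine ⟨hne, ?_⟩
    simp only [map_sub, map_pow, aeval_X, aeval_C]
    rw [sub_eq_zero]
    exact hy
  have hT : {P : K × K | P.1 ^ p = P.1 ∧ P.2 ^ 2 = (FF a).eval P.1}.Finite := by
    have hb : (⋃ x ∈ {x : K | x ^ p = x}, (fun y => (x, y)) '' {y : K | y ^ 2 = (FF a).eval x}).Finite :=
      hx.biUnion fun x _ => (hy _).image _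
    refine hb.subset ?_
    rintro ⟨x, y⟩ ⟨h1, h2⟩
    exact Set.mem_biUnion (show x ∈ {x : K | x ^ p = x} from h1) ⟨y, h2, rfl⟩
  set T : Set (K × K) := {P : K × K | P.1 ^ p = P.1 ∧ P.2 ^ 2 = (FF a).eval P.1} with hTdef
  have hfin : (({1} ∪ (fun P : K × K => clS a {P}) '' T) ∪
      (fun Q : (K × K) × (K × K) => clS a {Q.1, Q.2}) '' (T ×ˢ T)).Finite :=
    ((Set.finite_singleton _).union (hT.image _)).union ((hT.prod hT).image _)
  refine hfin.subset ?_
  rintro c ⟨S, hS, hc, hP, rfl⟩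
  have hmem : ∀ P ∈ S, P ∈ T := fun P h => ⟨hP P h, hS P h⟩
  have h3 : Multiset.card S = 0 ∨ Multiset.card S = 1 ∨ Multiset.card S = 2 := by omega
  rcases h3 with h | h | h
  · rw [Multiset.card_eq_zero] at h
    subst h
    exact Or.inl (Or.inl (clS_zero a))
  · obtain ⟨P, rfl⟩ := Multiset.card_eq_one.1 h
    exact Or.inl (Or.inr ⟨P, hmem P (Multiset.mem_singleton_self P), rfl⟩)
  · obtain ⟨P, Q, rfl⟩ := Multiset.card_eq_two.1 h
    exact Or.inr ⟨(P, Q), ⟨hmem P (by simp), hmem Q (by simp)⟩, rfl⟩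

end GJ
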