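import Pool.Agent.H88.GJ.Uni

/-!
# GJ, Four: four points (or the origin) whose classes are in geometric progression, genus two
-/

set_option autoImplicit false

namespace GJ

open Polynomial HK

variable {K : Type*} [Field K] [NeZero (2 : K)] (a : Fin (2 * 2 + 1) → K)
  [Fact (Function.Injective a)]

private theorem half_eq {α : Type*} (A B C : Multiset α) (hA : Multiset.card A ≤ 1)
    (hC : Multiset.card C ≤ 1) (hB : Multiset.card B ≤ 1) (h : A + C = B + B) : A = B := by
  classical
  have hc := congrArg Multiset.card h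
  rw [Multiset.card_add, Multiset.card_add] at hc
  rcases Nat.lt_or_ge (Multiset.card B) 1 with h0 | h1
  · have hB0 : Multiset.card B = 0 := by omega
    have hA0 : Multiset.card A = 0 := by omega
    rw [Multiset.card_eq_zero] at hA0 hB0
    rw [hA0, hB0]
  · have hB1 : Multiset.card B = 1 := by omega
    have hA1 : Multiset.card A = 1 := by omega
    obtain ⟨P, rfl⟩ := Multiset.card_eq_one.1 hA1
    obtain ⟨Q, rfl⟩ := Multiset.card_eq_one.1 hB1
    have hm : P ∈ ({Q} + {Q} : Multiset α) := by
      rw [← h]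
      exact Multiset.mem_add.2 (Or.inl (Multiset.mem_singleton_self P))
    rcases Multiset.mem_add.1 hm with hm | hm
    · rw [Multiset.mem_singleton.1 hm]
    · rw [Multiset.mem_singleton.1 hm]

private theorem three [IsAlgClosed K] (A B C : Multiset (K × K)) (hA : OnC a A) (hB : OnC a B)
    (hC : OnC a C) (cA : Multiset.card A ≤ 1) (cB : Multiset.card B ≤ 1)
    (cC : Multiset.card C ≤ 1) (e : ClassGroup (CR (FF a))) (h1 : clS a B = clS a A * e)
    (h2 : clS a C = clS a B * e) : e = 1 ∨ clS a B ^ 2 = 1 := by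
  by_cases hb : clS a B ^ 2 = 1
  · exact Or.inr hb
  · left
    have hcl : clS a (A + C) = clS a (B + B) := by
      rw [clS_add, clS_add, h2, h1]
      exact mul_left_comm _ _ _
    have hne : clS a (A + C) ≠ 1 := by
      rw [hcl, clS_add, ← sq]
      exact hb
    have hABC := uni a rfl (A + C) (B + B) ((onC_add a).2 ⟨hA, hC⟩) ((onC_add a).2 ⟨hB, hB⟩)
      (by rw [Multiset.card_add]; omega) (by rw [Multiset.card_add]; omega) hcl hne
    have hAB := half_eq A B C cA cC cB hABC
    rw [hAB] at h1
    exact (mul_eq_left.1 h1.symm)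

theorem four [IsAlgClosed K] (U : ℕ → Multiset (K × K)) (hU : ∀ i, OnC a (U i))
    (hc : ∀ i, Multiset.card (U i) ≤ 1) (e : ClassGroup (CR (FF a)))
    (h : ∀ i, i < 3 → clS a (U (i + 1)) = clS a (U i) * e) : e ^ 2 = 1 := by
  have h0 := h 0 (by norm_num)
  have h1 := h 1 (by norm_num)
  have h2 := h 2 (by norm_num)
  rcases three a (U 0) (U 1) (U 2) (hU 0) (hU 1) (hU 2) (hc 0) (hc 1) (hc 2) e h0 h1 with he | he
  · rw [he, one_pow]
  rcases three a (U 1) (U 2) (U 3) (hU 1) (hU 2) (hU 3) (hc 1) (hc 2) (hc 3) e h1 h2 with he' | he'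
  · rw [he', one_pow]
  · have h3 : clS a (U 2) ^ 2 = clS a (U 1) ^ 2 * e ^ 2 := by
      rw [h1, mul_pow]
    rw [he, he', one_mul] at h3
    exact h3.symm

end GJ
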