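import Pool.Agent.H95.HK.FinA1

/-!
# GJ, Restr: restriction of an automorphism of the `p`-adic algebraic closure to the algebraic numbers
-/

set_option autoImplicit false

namespace GJ

open HK

theorem restr (p : ℕ) [Fact p.Prime] (ι : HK.AK →+* PadicAlgCl p)
    (s : PadicAlgCl p ≃ₐ[ℚ_[p]] PadicAlgCl p) :
    ∃ s0 : HK.AK ≃ₐ[ℚ] HK.AK, ∀ x, ι (s0 x) = s (ι x) := by
  let _ : Algebra HK.AK (PadicAlgCl p) := ι.toAlgebra
  have h0 : Algebra.IsAlgebraic ℚ HK.AK := AlgebraicClosure.isAlgebraic ℚ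
  have h2 : IsAlgClosure ℚ HK.AK := ⟨inferInstance, h0⟩
  have hN : Normal ℚ HK.AK := IsAlgClosure.normal ℚ HK.AK
  have hT : IsScalarTower ℚ HK.AK (PadicAlgCl p) :=
    IsScalarTower.of_algebraMap_eq' (Subsingleton.elim _ _)
  let s' : PadicAlgCl p ≃ₐ[ℚ] PadicAlgCl p :=
    AlgEquiv.ofRingEquiv (f := s.toRingEquiv) (fun r => by
      have h : (s.toRingEquiv.toRingHom.comp (algebraMap ℚ (PadicAlgCl p))) =
        algebraMap ℚ (PadicAlgCl p) := Subsingleton.elim _ _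
      exact congrArg (fun f : ℚ →+* PadicAlgCl p => f r) h)
  refine ⟨s'.restrictNormal HK.AK, fun x => ?_⟩
  exact AlgEquiv.restrictNormal_commutes s' HK.AK x

end GJ
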